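import Mathlib

/-! # Valuations of the field of rational functions over `ℚ` -/

set_option autoImplicit false

namespace Pool.Agent.NegK.NT.H66

open WithZero

section mk

variable {P : Type*} [CommRing P] [IsDomain P] (d : P → ℤ)

/-- A valuation from a degree function. -/
noncomputable def mkVal (h1 : d 1 = 0) (hmul : ∀ f g, f ≠ 0 → g ≠ 0 → d (f * g) = d f + d g)
    (hadd : ∀ f g, f ≠ 0 → g ≠ 0 → f + g ≠ 0 → d (f + g) ≤ max (d f) (d g)) :
    Valuation P (WithZero (Multiplicative ℤ)) := by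
  classical
  exact
  { toFun := fun f => if f = 0 then 0 else exp (d f)
    map_zero' := if_pos rfl
    map_one' := by
      rw [if_neg one_ne_zero, h1, exp_zero]
    map_mul' := fun f g => by
      rcases eq_or_ne f 0 with rfl | hf
      · simp
      rcases eq_or_ne g 0 with rfl | hg
      · simp
      rw [if_neg (mul_ne_zero hf hg), if_neg hf, if_neg hg, hmul f g hf hg, exp_add]
    map_add_le_max' := fun f g => by
      rcases eq_or_ne f 0 with rfl | hf
      · simp
      rcases eq_or_ne g 0 with rfl | hg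
      · simp
      rcases eq_or_ne (f + g) 0 with h | h
      · rw [if_pos h]
        exact zero_le
      · rw [if_neg h, if_neg hf, if_neg hg]
        rcases le_max_iff.1 (hadd f g hf hg h) with h' | h'
        · exact le_max_of_le_left (exp_le_exp.2 h')
        · exact le_max_of_le_right (exp_le_exp.2 h') }

variable (h1 : d 1 = 0) (hmul : ∀ f g, f ≠ 0 → g ≠ 0 → d (f * g) = d f + d g)
    (hadd : ∀ f g, f ≠ 0 → g ≠ 0 → f + g ≠ 0 → d (f + g) ≤ max (d f) (d g))

theorem mkVal_apply {f : P} (hf : f ≠ 0) : mkVal d h1 hmul hadd f = exp (d f) := if_neg hf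

/-- The extension to the field of fractions. -/
theorem exists_val_of_deg (h1 : d 1 = 0) (hmul : ∀ f g, f ≠ 0 → g ≠ 0 → d (f * g) = d f + d g)
    (hadd : ∀ f g, f ≠ 0 → g ≠ 0 → f + g ≠ 0 → d (f + g) ≤ max (d f) (d g))
    (K : Type*) [Field K] [Algebra P K] [IsFractionRing P K] :
    ∃ v : Valuation K (WithZero (Multiplicative ℤ)),
      ∀ f : P, f ≠ 0 → v (algebraMap P K f) = exp (d f) := by
  have hS : nonZeroDivisors P ≤ (mkVal d h1 hmul hadd).supp.primeCompl := fun f hf h => by
    have h2 : mkVal d h1 hmul hadd f = 0 := (Valuation.mem_supp_iff _ _).1 h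
    rw [mkVal_apply d h1 hmul hadd (nonZeroDivisors.ne_zero hf)] at h2
    exact exp_ne_zero h2
  exact ⟨(mkVal d h1 hmul hadd).extendToLocalization hS K, fun f hf =>
    (Valuation.extendToLocalization_apply_map_apply _ hS K f).trans
      (mkVal_apply d h1 hmul hadd hf)⟩

end mk

/-- The valuation of a prime element. -/
theorem exists_primeVal {P : Type*} [CommRing P] [IsDomain P] [WfDvdMonoid P]
    (K : Type*) [Field K] [Algebra P K] [IsFractionRing P K] (π : P) (hπ : Prime π) :
    ∃ v : Valuation K (WithZero (Multiplicative ℤ)),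
      (∀ f : P, v (algebraMap P K f) ≤ 1) ∧ v (algebraMap P K π) < 1 ∧
      ∀ f : P, v (algebraMap P K f) < 1 → π ∣ f := by
  obtain ⟨v, hv⟩ := exists_val_of_deg (P := P) (fun f => -(multiplicity π f : ℤ)) (by
      rw [multiplicity_of_one_right hπ.not_isUnit]
      simp) (fun f g hf hg => by
      rw [multiplicity_mul hπ (FiniteMultiplicity.of_not_isUnit hπ.not_isUnit (mul_ne_zero hf hg))]
      push_cast
      ring) (fun f g hf hg hfg => by
      have h1 := (FiniteMultiplicity.of_not_isUnit hπ.not_isUnit hf)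
      have h2 := (FiniteMultiplicity.of_not_isUnit hπ.not_isUnit hg)
      have h3 := (FiniteMultiplicity.of_not_isUnit hπ.not_isUnit hfg)
      have h4 : min (emultiplicity π f) (emultiplicity π g) ≤ emultiplicity π (f + g) :=
        min_le_emultiplicity_add
      rw [h1.emultiplicity_eq_multiplicity, h2.emultiplicity_eq_multiplicity,
        h3.emultiplicity_eq_multiplicity] at h4
      rcases min_le_iff.1 h4 with h5 | h5 <;> rw [Nat.cast_le] at h5 <;> omega) K
  refine ⟨v, fun f => ?_, ?_, fun f h => ?_⟩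
  · rcases eq_or_ne f 0 with rfl | hf
    · simp
    · rw [hv f hf, ← exp_zero, exp_le_exp]
      omega
  · rw [hv π hπ.ne_zero, ← exp_zero, exp_lt_exp, multiplicity_self]
    simp
  · rcases eq_or_ne f 0 with rfl | hf
    · exact dvd_zero _
    · rw [hv f hf, ← exp_zero, exp_lt_exp] at h
      exact dvd_of_multiplicity_pos (by omega)

/-- The degree valuation. -/
theorem exists_degVal0 (σ : Type*) (R : Type*) [CommRing R] [IsDomain R] (K : Type*) [Field K]
    [Algebra (MvPolynomial σ R) K] [IsFractionRing (MvPolynomial σ R) K] :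
    ∃ v : Valuation K (WithZero (Multiplicative ℤ)), ∀ f : MvPolynomial σ R,
      v (algebraMap _ K f) ≤ 1 → ∃ c : R, f = MvPolynomial.C c := by
  obtain ⟨v, hv⟩ := exists_val_of_deg (P := MvPolynomial σ R) (fun f => (f.totalDegree : ℤ))
    (by simp) (fun f g hf hg => by
      rw [MvPolynomial.totalDegree_mul_of_isDomain hf hg]
      push_cast
      rfl) (fun f g _ _ _ => by
      have := MvPolynomial.totalDegree_add f g
      omega) K
  refine ⟨v, fun f h => ?_⟩
  rcases eq_or_ne f 0 with rfl | hf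
  · exact ⟨0, by simp⟩
  · rw [hv f hf, ← exp_zero, exp_le_exp] at h
    exact ⟨_, MvPolynomial.totalDegree_eq_zero_iff_eq_C.1 (by omega)⟩

section main

variable {P : Type*} [CommRing P] [IsDomain P] [UniqueFactorizationMonoid P]
  {K : Type*} [Field K] [Algebra P K] [IsFractionRing P K]

/-- The elements of `K` whose denominators divide a power of `g`. -/
def away (K : Type*) [Field K] [Algebra P K] (g : P) : Subring K where
  carrier := {a | ∃ (k : ℕ) (f : P), a * algebraMap P K g ^ k = algebraMap P K f}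
  one_mem' := ⟨0, 1, by simp⟩
  zero_mem' := ⟨0, 0, by simp⟩
  mul_mem' := by
    rintro a b ⟨k, f, h⟩ ⟨k', f', h'⟩
    refine ⟨k + k', f * f', ?_⟩
    rw [map_mul, ← h, ← h', pow_add]
    ring
  add_mem' := by
    rintro a b ⟨k, f, h⟩ ⟨k', f', h'⟩
    refine ⟨k + k', f * g ^ k' + f' * g ^ k, ?_⟩
    rw [map_add, map_mul, map_mul, ← h, ← h', pow_add, map_pow, map_pow]
    ring
  neg_mem' := by
    rintro a ⟨k, f, h⟩
    refine ⟨k, -f, ?_⟩
    rw [map_neg, ← h]
    ring

omit [UniqueFactorizationMonoid P] in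
theorem exists_away (S : Finset K) : ∃ g : P, g ≠ 0 ∧ Subring.closure (S : Set K) ≤ away K g := by
  obtain ⟨b, hb⟩ := IsLocalization.exist_integer_multiples_of_finset (nonZeroDivisors P) S
  refine ⟨b, nonZeroDivisors.coe_ne_zero b, Subring.closure_le.2 fun a ha => ?_⟩
  obtain ⟨f, hf⟩ := hb a ha
  refine ⟨1, f, ?_⟩
  rw [hf, Algebra.smul_def, pow_one, mul_comm]

/-- Denominators can be removed by the valuations of their prime factors. -/
theorem exists_vals_away (g : P) (hg : g ≠ 0) :
    ∃ (N : ℕ) (v : Fin N → Valuation K (WithZero (Multiplicative ℤ))),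
      ∀ a ∈ away K g, (∀ i, v i a ≤ 1) → ∃ f : P, a = algebraMap P K f := by
  classical
  obtain ⟨s, hs, hsg⟩ := UniqueFactorizationMonoid.exists_prime_factors g hg
  choose v hv1 hv3 hv2 using fun π : {π : P // Prime π} => exists_primeVal K π.1 π.2
  let T : Finset P := s.toFinset
  let e := T.equivFin
  refine ⟨T.card, fun i => v ⟨(e.symm i).1, hs _ (Multiset.mem_toFinset.1 (e.symm i).2)⟩, ?_⟩
  rintro a ⟨k, f, hf⟩ ha
  have hav : ∀ π (hπ : π ∈ s), v ⟨π, hs π hπ⟩ a ≤ 1 := by
    intro π hπ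
    have := ha (e ⟨π, Multiset.mem_toFinset.2 hπ⟩)
    simpa using this
  have key : ∀ (t : Multiset P), (∀ π ∈ t, π ∈ s) → ∀ f : P,
      a * algebraMap P K t.prod = algebraMap P K f → ∃ f : P, a = algebraMap P K f := by
    intro t
    induction t using Multiset.induction with
    | empty =>
      intro _ f h
      exact ⟨f, by simpa using h⟩
    | cons π t ih =>
      intro ht f h
      have hπ : π ∈ s := ht π (Multiset.mem_cons_self _ _)
      have hπp := hs π hπ
      rw [Multiset.prod_cons, map_mul] at h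
      have hπ0 : algebraMap P K π ≠ 0 := by
        rw [Ne, IsFractionRing.to_map_eq_zero_iff (K := K)]
        exact hπp.ne_zero
      have hdvd : π ∣ f := by
        refine hv2 ⟨π, hπp⟩ f ?_
        rw [← h, map_mul, map_mul]
        refine lt_of_le_of_lt (mul_le_mul' (hav π hπ)
          (mul_le_mul' le_rfl (hv1 ⟨π, hπp⟩ t.prod))) ?_
        rw [one_mul, mul_one]
        exact hv3 ⟨π, hπp⟩
      obtain ⟨f', rfl⟩ := hdvd
      refine ih (fun π hπ => ht π (Multiset.mem_cons_of_mem hπ)) f' ?_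
      rw [map_mul] at h
      refine mul_left_cancel₀ hπ0 ?_
      rw [← h]
      ring
  obtain ⟨u, hu⟩ := hsg
  refine key (k • s) (fun π hπ => Multiset.mem_of_mem_nsmul hπ) (f * (u⁻¹ : Pˣ).1 ^ k) ?_
  rw [map_mul, ← hf, Multiset.prod_nsmul, ← hu, map_mul, map_pow, map_pow, mul_assoc, ← mul_pow,
    mul_assoc, ← map_mul, Units.mul_inv, map_one, mul_one]

end main

/-- VAL0. -/
theorem val0 (σ : Type*) (K : Type*) [Field K] [Algebra (MvPolynomial σ ℤ) K]
    [IsFractionRing (MvPolynomial σ ℤ) K] (S : Finset K) :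
    ∃ (N : ℕ) (v : Fin N → Valuation K (WithZero (Multiplicative ℤ))),
      ∀ a ∈ Subring.closure (S : Set K), (∀ i, v i a ≤ 1) → ∃ z : ℤ, a = (z : K) := by
  obtain ⟨g, hg, hS⟩ := exists_away (P := MvPolynomial σ ℤ) S
  obtain ⟨N, v, hv⟩ := exists_vals_away (K := K) g hg
  obtain ⟨w, hw⟩ := exists_degVal0 σ ℤ K
  refine ⟨N + 1, Fin.cons w v, fun a ha h => ?_⟩
  obtain ⟨f, rfl⟩ := hv a (hS ha) fun i => by simpa using h i.succ
  obtain ⟨c, rfl⟩ := hw f (by simpa using h 0)
  exact ⟨c, by simp⟩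

/-- SPEC. -/
theorem spec0 (σ : Type*) (K : Type*) [Field K] [Algebra (MvPolynomial σ ℤ) K]
    [IsFractionRing (MvPolynomial σ ℤ) K] (S : Finset K) :
    Nonempty (Subring.closure (S : Set K) →+* ℚ) := by
  obtain ⟨g, hg, hS⟩ := exists_away (P := MvPolynomial σ ℤ) S
  obtain ⟨c, hc⟩ : ∃ c : σ → ℤ, MvPolynomial.eval c g ≠ 0 := by
    by_contra h
    push Not at h
    exact hg (MvPolynomial.funext fun c => by rw [h c, map_zero])
  let ev : MvPolynomial σ ℤ →+* ℚ := (Int.castRingHom ℚ).comp (MvPolynomial.eval c)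
  have hev : IsUnit (ev g) := isUnit_iff_ne_zero.2 (by
    show ((MvPolynomial.eval c g : ℤ) : ℚ) ≠ 0
    exact_mod_cast hc)
  let L := Localization.Away g
  let φ : L →+* ℚ := IsLocalization.Away.lift g hev
  have hgK : IsUnit (algebraMap (MvPolynomial σ ℤ) K g) := isUnit_iff_ne_zero.2 (by
    rw [Ne, IsFractionRing.to_map_eq_zero_iff (K := K)]
    exact hg)
  let j : L →+* K := IsLocalization.Away.lift g hgK
  have hj : Function.Injective j := by
    refine (IsLocalization.lift_injective_iff _).2 fun x y => ?_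
    rw [(IsLocalization.injective L (powers_le_nonZeroDivisors_of_noZeroDivisors hg)).eq_iff,
      (IsFractionRing.injective (MvPolynomial σ ℤ) K).eq_iff]
  have hjP : ∀ f : MvPolynomial σ ℤ, j (algebraMap _ L f) = algebraMap _ K f := fun f =>
    IsLocalization.Away.lift_eq g hgK f
  have hle : Subring.closure (S : Set K) ≤ j.range := by
    refine hS.trans ?_
    rintro a ⟨k, f, hf⟩
    have hu : IsUnit (algebraMap (MvPolynomial σ ℤ) L g) := IsLocalization.Away.algebraMap_isUnit g
    obtain ⟨u, hu⟩ := hu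
    refine ⟨algebraMap _ L f * (u⁻¹ : Lˣ).1 ^ k, ?_⟩
    have h1 : j (u⁻¹ : Lˣ).1 * algebraMap (MvPolynomial σ ℤ) K g = 1 := by
      rw [← hjP, ← hu, ← map_mul, Units.inv_mul, map_one]
    rw [map_mul, hjP, ← hf, map_pow, mul_assoc, ← mul_pow, mul_comm (algebraMap _ K g), h1,
      one_pow, mul_one]
  let e : L ≃+* j.range := RingEquiv.ofBijective j.rangeRestrict
    ⟨fun x y h => hj (congrArg Subtype.val h), j.rangeRestrict_surjective⟩
  exact ⟨φ.comp (e.symm.toRingHom.comp (Subring.inclusion hle))⟩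

/-- UNITS. -/
theorem units0 (σ : Type*) (K : Type*) [Field K] [Algebra (MvPolynomial σ ℤ) K]
    [IsFractionRing (MvPolynomial σ ℤ) K] (χ : K) (h0 : χ ≠ 0) (h : ∃ z : ℤ, χ + χ⁻¹ = (z : K)) :
    χ = 1 ∨ χ = -1 := by
  have key : ∀ χ : K, χ ≠ 0 → (∃ z : ℤ, χ + χ⁻¹ = (z : K)) →
      ∃ f : MvPolynomial σ ℤ, algebraMap _ K f = χ := by
    rintro χ h0 ⟨z, hz⟩
    refine IsIntegrallyClosed.isIntegral_iff.1 ⟨Polynomial.X ^ 2 - Polynomial.C (z : MvPolynomial σ ℤ) * Polynomial.X + 1, ?_, ?_⟩
    · monicity!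
    · have e1 : χ ^ 2 - z * χ + 1 = 0 := by
        rw [← hz, add_mul, inv_mul_cancel₀ h0]
        ring
      rw [Polynomial.eval₂_add, Polynomial.eval₂_sub, Polynomial.eval₂_mul, Polynomial.eval₂_X_pow,
        Polynomial.eval₂_C, Polynomial.eval₂_X, Polynomial.eval₂_one, map_intCast]
      exact e1
  obtain ⟨f, hf⟩ := key χ h0 h
  obtain ⟨f', hf'⟩ := key χ⁻¹ (inv_ne_zero h0) (by
    obtain ⟨z, hz⟩ := h
    exact ⟨z, by rw [inv_inv, add_comm, hz]⟩)
  have hu : f * f' = 1 := by
    apply IsFractionRing.injective (MvPolynomial σ ℤ) K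
    rw [map_mul, hf, hf', map_one, mul_inv_cancel₀ h0]
  have hu' : IsUnit f := IsUnit.of_mul_eq_one _ hu
  rw [MvPolynomial.isUnit_iff_eq_C_of_isReduced] at hu'
  obtain ⟨r, hr, rfl⟩ := hu'
  rcases Int.isUnit_iff.1 hr with rfl | rfl
  · left
    rw [← hf]
    simp
  · right
    rw [← hf]
    simp

end Pool.Agent.NegK.NT.H66
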