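import Mathlib

/-! # Extension of discrete valuations to finite separable extensions -/

set_option autoImplicit false

namespace Pool.Agent.NegK.NT.H66

universe u v

open IsDedekindDomain WithZero

/-- A discrete valuation of `K` has finitely many extensions to a finite separable extension `L`,
and the elements which are integral for all of them are integral over the valuation ring. -/
theorem ext_vals (K : Type u) (L : Type v) [Field K] [Field L] [Algebra K L] [FiniteDimensional K L]
    [Algebra.IsSeparable K L] (v : Valuation K (WithZero (Multiplicative ℤ))) :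
    ∃ (m : ℕ) (w : Fin m → Valuation L (WithZero (Multiplicative ℤ))),
      ∀ a : L, (∀ i, w i a ≤ 1) → IsIntegral v.valuationSubring a := by
  classical
  by_cases hv : Nontrivial (MonoidWithZeroHom.valueGroup (.ofClass v))
  · have : IsDiscreteValuationRing v.valuationSubring := inferInstance
    let O := v.valuationSubring
    let C := integralClosure O L
    have : IsDedekindDomain C := integralClosure.isDedekindDomain O K L
    have : IsFractionRing C L := integralClosure.isFractionRing_of_finite_extension K L
    have hfin : Finite (HeightOneSpectrum C) := by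
      let p : Ideal O := IsLocalRing.maximalIdeal O
      have hf : (p.primesOver C).Finite := IsDedekindDomain.primesOver_finite p C
      have : Finite (p.primesOver C) := hf
      refine Finite.of_injective (β := p.primesOver C)
        (fun P => ⟨P.asIdeal, P.isPrime, ⟨?_⟩⟩) fun P Q h => ?_
      · have h1 : (P.asIdeal.under O).IsPrime := Ideal.IsPrime.under O P.asIdeal
        exact (IsLocalRing.eq_maximalIdeal
          (h1.isMaximal (mt Ideal.eq_bot_of_comap_eq_bot P.ne_bot))).symm
      · exact HeightOneSpectrum.ext (Subtype.ext_iff.1 h)
    obtain ⟨m, ⟨e⟩⟩ := Finite.exists_equiv_fin (HeightOneSpectrum C)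
    refine ⟨m, fun i => (e.symm i).valuation L, fun a ha => ?_⟩
    obtain ⟨c, hc⟩ := HeightOneSpectrum.mem_integers_of_valuation_le_one (R := C) L a fun P => by
      have := ha (e P)
      simpa using this
    rw [← hc]
    exact c.2
  · refine ⟨0, fun i => i.elim0, fun a _ => ?_⟩
    have h1 : ∀ x : K, x ∈ v.valuationSubring := by
      intro x
      by_contra hx
      have hx0 : v x ≠ 0 := fun h => hx (by
        show v x ≤ 1
        rw [h]
        exact zero_le_one)
      refine hv ⟨⟨⟨Units.mk0 (v x) hx0, ?_⟩, 1, fun h => hx ?_⟩⟩
      · exact MonoidWithZeroHom.mem_valueGroup _ ⟨x, rfl⟩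
      · have h2 := congrArg (fun z => ((z : (WithZero (Multiplicative ℤ))ˣ) :
          WithZero (Multiplicative ℤ))) (Subtype.ext_iff.1 h)
        have h3 : v x = 1 := h2
        show v x ≤ 1
        rw [h3]
    have : Algebra.IsIntegral v.valuationSubring K :=
      Algebra.isIntegral_of_surjective fun x => ⟨⟨x, h1 x⟩, rfl⟩
    exact isIntegral_trans (R := v.valuationSubring) (A := K) a (Algebra.IsIntegral.isIntegral a)

end Pool.Agent.NegK.NT.H66
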