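import Pool.Agent.Lib.MP_28303a_al.NT.H66.TreeD
import Pool.Agent.Lib.MP_28303a_al.NT.A.Iface
import Pool.Agent.Lib.MP_28303a_al.NT.Fin
import Pool.Agent.Lib.MP_28303a_al.TT.H91.SubS

/-! # The systems of the boxes: vertices, edges, paths, stabilizers -/

set_option autoImplicit false
set_option linter.unusedSectionVars false

namespace Pool.Agent.NegK.NT.H66.TD

universe u v w

open SimpleGraph Pool.Agent.NegK.TW

section one

variable {Γ : Type u} [Group Γ] {V E : Type u} [MulAction Γ V] [MulAction Γ E]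
  {G : SimpleGraph V} (T : OTree Γ V E)

open Classical in
/-- An edge as a subtree. -/
noncomputable def Lb.ed (hT : T.Of G) (e : E) : Lb G := ⟨{T.o e, T.t e}, by
  rw [Finset.coe_pair]
  exact induce_pair_connected_of_adj (hT.adj e)⟩

theorem Lb.ed_le (hT : T.Of G) {e : E} {c : Lb G} :
    Lb.ed T hT e ≤ c ↔ T.o e ∈ c.1 ∧ T.t e ∈ c.1 := by
  classical
  rw [Lb.le_iff, Lb.ed, Finset.insert_subset_iff, Finset.singleton_subset_iff]

/-- A point of a subtree. -/
noncomputable def root (c : Lb G) : V := c.nonempty.choose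

theorem root_mem (c : Lb G) : root c ∈ c.1 := c.nonempty.choose_spec

variable (hG : G.IsTree) (hT : T.Of G)

include hG hT in
theorem exists_pth (c : Lb G) (v : V) : ∃ y : E →₀ ℤ, v ∈ c.1 →
    (∀ e, y e ≠ 0 → T.o e ∈ c.1 ∧ T.t e ∈ c.1) ∧
      bd T ℤ y = Finsupp.single v 1 - Finsupp.single (root c) 1 := by
  classical
  by_cases hv : v ∈ c.1
  · obtain ⟨y, h1, h2⟩ := exact_mid T hG hT c (A := ℤ)
      (Finsupp.single v 1 - Finsupp.single (root c) 1) (fun w hw => by
        by_contra hc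
        refine hw ?_
        have h1 : v ≠ w := fun h => hc (h ▸ hv)
        have h2 : root c ≠ w := fun h => hc (h ▸ root_mem c)
        rw [Finsupp.sub_apply, Finsupp.single_apply, Finsupp.single_apply, if_neg h1, if_neg h2,
          sub_zero]) (by
        rw [map_sub, sm_single, sm_single, sub_self])
    exact ⟨y, fun _ => ⟨h1, h2⟩⟩
  · exact ⟨0, fun h => absurd h hv⟩

/-- The path from the root. -/
noncomputable def pth (c : Lb G) (v : V) : E →₀ ℤ := (exists_pth T hG hT c v).choose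

theorem pth_mem {c : Lb G} {v : V} (hv : v ∈ c.1) {e : E} (he : pth T hG hT c v e ≠ 0) :
    T.o e ∈ c.1 ∧ T.t e ∈ c.1 := ((exists_pth T hG hT c v).choose_spec hv).1 e he

theorem bd_pth {c : Lb G} {v : V} (hv : v ∈ c.1) :
    bd T ℤ (pth T hG hT c v) = Finsupp.single v 1 - Finsupp.single (root c) 1 :=
  ((exists_pth T hG hT c v).choose_spec hv).2

theorem bd_eq (y : E →₀ ℤ) : (y.sum fun e a =>
    a • (Finsupp.single (T.t e) (1 : ℤ) - Finsupp.single (T.o e) 1)) = bd T ℤ y := by
  rw [bd, Finsupp.liftAddHom_apply]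
  refine Finsupp.sum_congr fun e _ => ?_
  rw [smul_sub, Finsupp.smul_single, Finsupp.smul_single, smul_eq_mul, mul_one]
  rfl

theorem pth_bd {c : Lb G} {e : E} (h1 : T.o e ∈ c.1) (h2 : T.t e ∈ c.1) :
    pth T hG hT c (T.t e) - pth T hG hT c (T.o e) = Finsupp.single e 1 := by
  refine sub_eq_zero.1 (exact_left T hG hT _ ?_)
  rw [map_sub, map_sub, bd_pth T hG hT h1, bd_pth T hG hT h2, bd_single]
  abel

end one

variable {Γ : Type u} [Group Γ] (Y : Trees Γ)

/-- The system of the boxes. -/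
def sys : Sys Γ := treeSys (m := Y.m) Y.V Y.G Y.tree

/-- The sizes of the boxes. -/
theorem sized : (sys Y).Sized := by
  classical
  let sz : (∀ i, Lb (Y.G i)) → ℕ := fun x => ∑ i, (x i).1.card
  refine ⟨sz, ?_, ?_⟩
  · intro g x
    refine Finset.sum_congr rfl fun i _ => ?_
    exact Finset.card_map _
  · intro x y h hne
    have h1 : ∀ i, ((x : ∀ i, Lb (Y.G i)) i).1 ⊆ ((y : ∀ i, Lb (Y.G i)) i).1 := h
    obtain ⟨i, hi⟩ := Function.ne_iff.1 hne
    refine Finset.sum_lt_sum (fun j _ => Finset.card_le_card (h1 j)) ⟨i, Finset.mem_univ _, ?_⟩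
    refine Finset.card_lt_card ((h1 i).ssubset_of_ne fun h2 => hi (Lb.ext' h2))

/-- The stabilizer of a box is in a joint stabilizer of vertices. -/
theorem stab_le (U : (sys Y).Box) : ∃ v : ∀ i, Y.V i, MulAction.stabilizer Γ U ≤ Y.st v := by
  obtain ⟨x, -, hx⟩ := stab_box Y.V Y.G Y.tree U
  refine ⟨x, fun g hg => ?_⟩
  have h1 : ∀ i, Lb.smul (Y.tree i).adj g ((U : ∀ i, Lb (Y.G i)) i) = U i := fun i =>
    congrFun (MulAction.mem_stabilizer_iff.1 hg) i
  have h2 := hx g h1
  refine Subgroup.mem_iInf.2 fun i => ?_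
  exact MulAction.mem_stabilizer_iff.2 (h2 i)

/-- The boxes are the boxes of finite subtrees. -/
theorem isSys : Y.IsSys (sys Y) := ⟨sized Y, stab_le Y⟩

/-- The vertices, the edges and the paths. -/
theorem exists_tr : Nonempty (sys Y).Tr := by
  classical
  have h0 : ∀ i, ∃ (E : Type u) (_ : MulAction Γ E) (T : OTree Γ (Y.V i) E), T.Of (Y.G i) :=
    fun i => H19.tre' Γ (Y.V i) (Y.G i) (Y.tree i)
  choose E iE T hT using h0
  exact ⟨{
    V := Y.V
    E := E
    vt := fun i v => Lb.vt (Y.G i) v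
    ed := fun i e => Lb.ed (T i) (hT i) e
    s := fun i => (T i).t
    t := fun i => (T i).o
    sle := fun i e => Lb.vt_le.2 ((Lb.ed_le (T i) (hT i)).1 le_rfl).2
    tle := fun i e => Lb.vt_le.2 ((Lb.ed_le (T i) (hT i)).1 le_rfl).1
    root := fun i c => root (G := Y.G i) c
    root_le := fun i c => Lb.vt_le.2 (root_mem (G := Y.G i) c)
    pth := fun i c v => pth (T i) (Y.tree i).tree (hT i) c v
    pth_le := fun i c v hv e he => (Lb.ed_le (T i) (hT i)).2
      (pth_mem (T i) (Y.tree i).tree (hT i) (Lb.vt_le.1 hv) he)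
    bd_pth := fun i c v hv => by
      rw [bd_eq]
      exact bd_pth (T i) (Y.tree i).tree (hT i) (Lb.vt_le.1 hv)
    pth_bd := fun i c e he => by
      have h1 := (Lb.ed_le (T i) (hT i)).1 he
      exact pth_bd (T i) (Y.tree i).tree (hT i) h1.1 h1.2 }⟩

/-- The vertices, the edges and the paths. -/
noncomputable def tr : (sys Y).Tr := (exists_tr Y).some

/-- The conditions on the stabilizers. -/
theorem fin' (h : ∀ v, InRC (Y.st v)) : (sys Y).Fin' := by
  refine ⟨fun i x => ?_, fun U => ?_⟩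
  · have h1 : {y : Lb (Y.G i) | y ≤ x}.Finite := by
      refine Set.Finite.of_finite_image
        (f := fun y : Lb (Y.G i) => y.1) ((x.1.powerset.finite_toSet).subset ?_)
        (fun a _ b _ hab => Lb.ext' hab)
      rintro _ ⟨y, hy, rfl⟩
      exact Finset.mem_coe.2 (Finset.mem_powerset.2 hy)
    exact h1
  · obtain ⟨v, hv⟩ := stab_le Y U
    exact TT.inRC_le TT.H91.sub hv (h v)

end Pool.Agent.NegK.NT.H66.TD
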