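import Pool.Agent.Lib.MP_28303a_al.TT.H76.BT

/-! # The line as a tree with translations -/

set_option autoImplicit false

namespace Pool.Agent.NegK.NT.H66

universe u

open Pool.Agent.NegK.TW Pool.Agent.NegK.TT

/-- The line tree. -/
def lineG : SimpleGraph (ULift.{u} ℤ) where
  Adj x y := y.down = x.down - 1 ∨ x.down = y.down - 1
  symm := ⟨fun _ _ h => h.symm⟩
  loopless := ⟨fun x h => by
    rcases h with h | h <;> omega⟩

theorem lineG_tree : lineG.{u}.IsTree := by
  have : Nonempty (ULift.{u} ℤ) := ⟨⟨0⟩⟩
  refine H76.isTree_of_parent lineG.{u} (fun x => ⟨x.down - 1⟩) (fun x => x.down)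
    (fun x y => ?_) (fun x => rfl) fun x y => ?_
  · constructor
    · rintro (h | h)
      · exact Or.inl (ULift.ext _ _ h)
      · exact Or.inr (ULift.ext _ _ h)
    · rintro (h | h)
      · exact Or.inl (congrArg ULift.down h)
      · exact Or.inr (congrArg ULift.down h)
  · have hit : ∀ (n : ℕ) (z : ULift.{u} ℤ),
        (fun x : ULift.{u} ℤ => (⟨x.down - 1⟩ : ULift.{u} ℤ))^[n] z = ⟨z.down - n⟩ := by
      intro n
      induction n with
      | zero => intro z; simp
      | succ n ih =>
        intro z
        rw [Function.iterate_succ_apply', ih]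
        apply ULift.ext
        show z.down - n - 1 = z.down - ((n + 1 : ℕ) : ℤ)
        push_cast
        ring
    refine ⟨(x.down - min x.down y.down).toNat, (y.down - min x.down y.down).toNat, ?_⟩
    rw [hit, hit]
    apply ULift.ext
    show x.down - ((x.down - min x.down y.down).toNat : ℤ) =
      y.down - ((y.down - min x.down y.down).toNat : ℤ)
    omega

/-- LINE. A group with a character `χ` acts on a line, and the elements with a fixed vertex are
those of the kernel of `χ`. -/
theorem line (Γ : Type u) [Group Γ] (χ : Γ →* Multiplicative ℤ) :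
    ∃ (V : Type u) (_ : MulAction Γ V) (T : SimpleGraph V), TreeAct Γ T ∧
      ∀ (g : Γ) (x : V), g • x = x → χ g = 1 := by
  let i : MulAction Γ (ULift.{u} ℤ) :=
    { smul := fun g x => ⟨(χ g).toAdd + x.down⟩
      one_smul := fun x => by
        apply ULift.ext
        show (χ 1).toAdd + x.down = x.down
        rw [map_one]
        exact zero_add _
      mul_smul := fun g h x => by
        apply ULift.ext
        show (χ (g * h)).toAdd + x.down = (χ g).toAdd + ((χ h).toAdd + x.down)
        rw [map_mul]
        exact add_assoc _ _ _ }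
  have hs : ∀ (g : Γ) (x : ULift.{u} ℤ), (g • x).down = (χ g).toAdd + x.down := fun g x => rfl
  refine ⟨ULift.{u} ℤ, i, lineG, ⟨lineG_tree, ?_, ?_⟩, ?_⟩
  · rintro g x y h
    show (g • y).down = (g • x).down - 1 ∨ (g • x).down = (g • y).down - 1
    rw [hs, hs]
    rcases h with h | h
    · exact Or.inl (by omega)
    · exact Or.inr (by omega)
  · rintro g x y h ⟨h1, h2⟩
    have e1 := hs g x
    have e2 := hs g y
    rw [h1] at e1
    rw [h2] at e2
    rcases h with h | h <;> omega
  · intro g x h
    have e1 := hs g x
    rw [h] at e1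
    have e2 : (χ g).toAdd = 0 := by omega
    exact e2

end Pool.Agent.NegK.NT.H66
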