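import Mathlib

/-! # Unipotent elements over rings of positive characteristic have finite order -/

set_option autoImplicit false

namespace Pool.Agent.NegK.NT.H66

universe u

/-- If `x` is nilpotent in an algebra over a finite ring then `1 + x` has finite order. -/
theorem one_add_pow (k : Type*) [CommRing k] [Finite k] {B : Type*} [Ring B] [Algebra k B]
    (x : B) (hx : IsNilpotent x) : ∃ n : ℕ, 0 < n ∧ (1 + x) ^ n = 1 := by
  have hint : IsIntegral k x := by
    obtain ⟨m, hm⟩ := hx
    exact ⟨Polynomial.X ^ m, Polynomial.monic_X_pow m, by simp [hm]⟩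
  let C := Algebra.adjoin k {x}
  have hC : Module.Finite k C := Module.Finite.iff_fg.2 hint.fg_adjoin_singleton
  have hC' : Finite C := Module.finite_of_finite k
  let y : C := ⟨x, Algebra.subset_adjoin rfl⟩
  have hy : IsNilpotent y := by
    obtain ⟨m, hm⟩ := hx
    exact ⟨m, Subtype.ext hm⟩
  obtain ⟨u, hu⟩ := hy.isUnit_one_add
  obtain ⟨n, hn, h⟩ := (isOfFinOrder_iff_pow_eq_one).1 (isOfFinOrder_of_finite u)
  refine ⟨n, hn, ?_⟩
  have h1 : (1 + y) ^ n = 1 := by
    rw [← hu, ← Units.val_pow_eq_pow_val, h, Units.val_one]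
  exact congrArg Subtype.val h1

/-- A matrix with entries in a nilpotent ideal is nilpotent. -/
theorem isNilpotent_matrix {A : Type*} [CommRing A] {m : Type*} [Fintype m] [DecidableEq m]
    (N : Ideal A) (hN : IsNilpotent N) (x : Matrix m m A) (hx : ∀ i j, x i j ∈ N) :
    IsNilpotent x := by
  obtain ⟨r, hr⟩ := hN
  have h : ∀ (n : ℕ) i j, (x ^ n) i j ∈ N ^ n := by
    intro n
    induction n with
    | zero =>
      intro i j
      rw [pow_zero, Ideal.one_eq_top]
      exact Submodule.mem_top
    | succ n ih =>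
      intro i j
      rw [pow_succ x, Matrix.mul_apply, pow_succ N]
      exact Ideal.sum_mem _ fun l _ => Ideal.mul_mem_mul (ih i l) (hx l j)
  refine ⟨r, ?_⟩
  ext i j
  have h1 := h r i j
  rw [hr] at h1
  simpa using h1

/-- NILP. Let `A` be a finitely generated commutative algebra over the finite ring `k` and `g` an
invertible matrix over `A`, whose image over `A ⧸ P` has finite order for every minimal prime
ideal `P`. Then `g` has finite order. -/
theorem nilp (k : Type*) [CommRing k] [Finite k] {A : Type*} [CommRing A] [Algebra k A]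
    [Algebra.FiniteType k A] {m : Type*} [Fintype m] [DecidableEq m] (g : GL m A)
    (h : ∀ P ∈ minimalPrimes A, ∃ n : ℕ, 0 < n ∧
      (Matrix.GeneralLinearGroup.map (Ideal.Quotient.mk P) g) ^ n = 1) :
    ∃ n : ℕ, 0 < n ∧ g ^ n = 1 := by
  classical
  have hA : IsNoetherianRing A := Algebra.FiniteType.isNoetherianRing k A
  have hfin : (minimalPrimes A).Finite := minimalPrimes.finite_of_isNoetherianRing A
  have hN : IsNilpotent (nilradical A) := IsNoetherianRing.isNilpotent_nilradical A
  choose n hn0 hn using h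
  let M : ℕ := ∏ P : hfin.toFinset, n P.1 (hfin.mem_toFinset.1 P.2)
  have hM0 : 0 < M := Finset.prod_pos fun P _ => hn0 _ _
  have hM : ∀ P ∈ minimalPrimes A, (Matrix.GeneralLinearGroup.map (Ideal.Quotient.mk P) g) ^ M = 1 := by
    intro P hP
    have hd : n P hP ∣ M := Finset.dvd_prod_of_mem
      (fun P : hfin.toFinset => n P.1 (hfin.mem_toFinset.1 P.2))
      (Finset.mem_univ ⟨P, hfin.mem_toFinset.2 hP⟩)
    obtain ⟨c, hc⟩ := hd
    rw [hc, pow_mul, hn, one_pow]
  let x : Matrix m m A := (g ^ M : GL m A).1 - 1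
  have hx : ∀ i j, x i j ∈ nilradical A := by
    intro i j
    have h1 : nilradical A = sInf (minimalPrimes A) := by
      rw [nilradical, ← Ideal.sInf_minimalPrimes]
      rfl
    rw [h1, Ideal.mem_sInf]
    intro P hP
    have h2 := hM P hP
    rw [← map_pow] at h2
    have h3 := congrArg (fun y : GL m (A ⧸ P) => (y : Matrix m m (A ⧸ P)) i j) h2
    have h4 : Ideal.Quotient.mk P ((g ^ M : GL m A).1 i j) = (1 : Matrix m m (A ⧸ P)) i j := h3
    rw [← Ideal.Quotient.eq_zero_iff_mem]
    show Ideal.Quotient.mk P ((g ^ M : GL m A).1 i j - (1 : Matrix m m A) i j) = 0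
    rw [map_sub, h4, sub_eq_zero, Matrix.one_apply, Matrix.one_apply]
    split_ifs <;> simp
  obtain ⟨r, hr0, hr⟩ := one_add_pow k x (isNilpotent_matrix _ hN x hx)
  refine ⟨M * r, Nat.mul_pos hM0 hr0, ?_⟩
  apply Units.ext
  rw [pow_mul, Units.val_pow_eq_pow_val, Units.val_one, ← hr]
  congr 1
  show (g ^ M : GL m A).1 = 1 + ((g ^ M : GL m A).1 - 1)
  rw [add_sub_cancel]

end Pool.Agent.NegK.NT.H66
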