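import Pool.Agent.Lib.MP_28303a_al.NT.H66.Val
import Pool.Agent.Lib.MP_28303a_al.TT.Sl3
import Pool.Agent.Lib.MP_28303a_al.TT.H91.Laur

/-! # Torsionfree subgroups of `SL₂(E)`, `E` a field of positive characteristic

The class `𝒞` of groups is closed under directed unions and contains the groups which act on
finitely many trees such that no `g ≠ 1` fixes a vertex of every tree. -/

set_option autoImplicit false
set_option linter.unusedSectionVars false

namespace Pool.Agent.NegK.NT.H66

universe u v

open Matrix Pool.Agent.NegK.TT Pool.Agent.NegK.TW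

/-- If every finite subset of `G` lies in a subgroup in `𝒞` then `G` is in `𝒞`. -/
def ClosedLoc (𝒞 : (G : Type u) → [Group G] → Prop) : Prop :=
  ∀ (G : Type u) [Group G], (∀ S : Finset G, ∃ H : Subgroup G, (∀ s ∈ S, s ∈ H) ∧ 𝒞 H) → 𝒞 G

/-- `𝒞` contains the groups which act on finitely many trees such that no `g ≠ 1` fixes a vertex
of every tree. -/
def TreesIn (𝒞 : (G : Type u) → [Group G] → Prop) : Prop :=
  ∀ (Γ : Type u) [Group Γ] (m : ℕ) (V : Fin m → Type u) (_ : ∀ i, MulAction Γ (V i))
    (T : ∀ i, SimpleGraph (V i)), (∀ i, TreeAct Γ (T i)) →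
    (∀ (g : Γ) (x : ∀ i, V i), (∀ i, g • x i = x i) → g = 1) → 𝒞 Γ

theorem map_inj {A K : Type*} [CommRing A] [CommRing K] (ι : A →+* K)
    (hι : Function.Injective ι) :
    Function.Injective (SpecialLinearGroup.map (n := Fin 2) ι) := by
  intro g g' h
  refine (Matrix.SpecialLinearGroup.ext_iff _ _).2 fun i j => hι ?_
  exact congrArg (fun x : SpecialLinearGroup (Fin 2) K => (x : Matrix (Fin 2) (Fin 2) K) i j) h

/-- Torsionfree subgroups of `SL₂(A)`, `A` a finitely generated domain of characteristic `p`. -/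
theorem sl2_fg {𝒞 : (G : Type u) → [Group G] → Prop} (hT : TreesIn 𝒞) (p : ℕ) [Fact p.Prime]
    (A : Type u) [CommRing A] [IsDomain A] [Algebra (ZMod p) A] [Algebra.FiniteType (ZMod p) A]
    (Γ : Type u) [Group Γ] (htf : TorsionFree Γ) (φ : Γ →* SpecialLinearGroup (Fin 2) A)
    (hφ : Function.Injective φ) : 𝒞 Γ := by
  let L := FractionRing A
  obtain ⟨m, v, hv⟩ := exists_vals p A L
  have hcp : CharP L p :=
    charP_of_injective_ringHom ((algebraMap A L).comp (algebraMap (ZMod p) A)).injective p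
  choose V iV T hT1 hT2 using fun i => H76.bt L (v i)
  let φ' : Γ →* SpecialLinearGroup (Fin 2) L := (SpecialLinearGroup.map (algebraMap A L)).comp φ
  have hφ' : Function.Injective φ' := (map_inj _ (IsFractionRing.injective A L)).comp hφ
  refine hT Γ m V (fun i => MulAction.compHom (V i) φ') T (fun i => treeAct_hom (hT1 i) φ')
    fun g x hx => ?_
  have htr : Matrix.trace (φ' g : Matrix (Fin 2) (Fin 2) L) =
      algebraMap A L (Matrix.trace (φ g : Matrix (Fin 2) (Fin 2) A)) := by
    rw [Matrix.trace_fin_two, Matrix.trace_fin_two, map_add]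
    rfl
  have halg : IsAlgebraic (ZMod p) (Matrix.trace (φ g : Matrix (Fin 2) (Fin 2) A)) :=
    hv _ fun i => by
      rw [← htr]
      exact hT2 i (φ' g) (x i) (hx i)
  obtain ⟨n, hn, hn'⟩ := tor L p (φ' g) (by
    rw [htr]
    exact H91.exists_intPoly p L (RingHom.id L) halg.algebraMap)
  rw [← map_pow] at hn'
  exact htf g n hn (hφ' (hn'.trans (map_one φ').symm))

/-- Torsionfree subgroups of `SL₂(E)`, `E` a field of characteristic `p`. -/
theorem sl2_field {𝒞 : (G : Type u) → [Group G] → Prop} (hC : ClosedLoc 𝒞) (hT : TreesIn 𝒞)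
    (p : ℕ) [Fact p.Prime] (E : Type u) [Field E] [CharP E p] (Γ : Type u) [Group Γ]
    (htf : TorsionFree Γ) (φ : Γ →* SpecialLinearGroup (Fin 2) E)
    (hφ : Function.Injective φ) : 𝒞 Γ := by
  classical
  let _ : Algebra (ZMod p) E := ZMod.algebra E p
  refine hC Γ fun S => ⟨Subgroup.closure (S : Set Γ), fun s hs => Subgroup.subset_closure hs, ?_⟩
  let R : Finset E := S.biUnion fun s => Finset.univ.biUnion fun i : Fin 2 =>
    Finset.univ.image fun j : Fin 2 => (φ s : Matrix (Fin 2) (Fin 2) E) i j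
  let A : Subalgebra (ZMod p) E := Algebra.adjoin (ZMod p) (R : Set E)
  have hA : Algebra.FiniteType (ZMod p) A :=
    (Subalgebra.fg_iff_finiteType A).1 ⟨R, rfl⟩
  have hinj : Function.Injective (SpecialLinearGroup.map (n := Fin 2) (algebraMap A E)) :=
    map_inj _ Subtype.val_injective
  have hcl : Subgroup.closure (S : Set Γ) ≤
      (SpecialLinearGroup.map (n := Fin 2) (algebraMap A E)).range.comap φ := by
    rw [Subgroup.closure_le]
    intro s hs
    have hmem : ∀ i j, (φ s : Matrix (Fin 2) (Fin 2) E) i j ∈ A := fun i j =>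
      Algebra.subset_adjoin (Finset.mem_coe.2 (Finset.mem_biUnion.2 ⟨s, hs,
        Finset.mem_biUnion.2 ⟨i, Finset.mem_univ _, Finset.mem_image.2 ⟨j, Finset.mem_univ _, rfl⟩⟩⟩))
    refine ⟨⟨Matrix.of fun i j => ⟨_, hmem i j⟩, ?_⟩, ?_⟩
    · apply Subtype.val_injective
      have h1 := (φ s).2
      rw [Matrix.det_fin_two] at h1 ⊢
      exact h1
    · refine (Matrix.SpecialLinearGroup.ext_iff _ _).2 fun i j => rfl
  let e := (MonoidHom.ofInjective hinj).symm
  let ψ : Subgroup.closure (S : Set Γ) →* SpecialLinearGroup (Fin 2) A :=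
    e.toMonoidHom.comp ((φ.comp (Subgroup.closure (S : Set Γ)).subtype).codRestrict _
      fun g => hcl g.2)
  refine sl2_fg hT p A _ (fun g n hn h => Subtype.ext (htf g.1 n hn (by
    have := congrArg Subtype.val h
    simpa using this))) ψ fun g g' h => ?_
  have h1 := e.injective h
  exact Subtype.ext (hφ (congrArg Subtype.val h1))

end Pool.Agent.NegK.NT.H66
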