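import Pool.Agent.Lib.MP_28303a_al.TW.H14.Td

/-! # Finite subtrees -/

set_option autoImplicit false
set_option linter.unusedSectionVars false

namespace Pool.Agent.NegK.NT.H66.TD

universe u v w

open SimpleGraph Pool.Agent.NegK.TW

/-- The finite nonempty subtrees. -/
def Lb {V : Type u} (G : SimpleGraph V) : Type u :=
  {s : Finset V // (G.induce (s : Set V)).Connected}

section

variable {V : Type u} {G : SimpleGraph V}

theorem Lb.ext' {s t : Lb G} (h : s.1 = t.1) : s = t := Subtype.ext h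

instance : PartialOrder (Lb G) := PartialOrder.lift (fun s => s.1) Subtype.val_injective

theorem Lb.le_iff {s t : Lb G} : s ≤ t ↔ s.1 ⊆ t.1 := Iff.rfl

theorem Lb.nonempty (s : Lb G) : s.1.Nonempty := by
  obtain ⟨x, hx⟩ := s.2.nonempty
  exact ⟨x, hx⟩

/-- A vertex. -/
def Lb.vt (G : SimpleGraph V) (v : V) : Lb G := ⟨{v}, by
  rw [Finset.coe_singleton]
  have : Subsingleton ({v} : Set V) := Set.subsingleton_singleton.coe_sort
  exact { preconnected := fun x y => by rw [Subsingleton.elim x y], nonempty := ⟨⟨v, rfl⟩⟩ }⟩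

theorem Lb.vt_le {v : V} {s : Lb G} : Lb.vt G v ≤ s ↔ v ∈ s.1 := Finset.singleton_subset_iff

theorem dir (hG : G.IsTree) (s t : Lb G) : ∃ r : Lb G, s ≤ r ∧ t ≤ r := by
  classical
  obtain ⟨a, ha⟩ := s.nonempty
  obtain ⟨b, hb⟩ := t.nonempty
  obtain ⟨p⟩ := hG.connected.preconnected a b
  have h1 : (G.induce {v | v ∈ p.support}).Connected := p.connected_induce_support
  have h2 : (G.induce ((s.1 : Set V) ∪ {v | v ∈ p.support})).Connected :=
    induce_union_connected s.2.preconnected h1.preconnected ⟨a, ha, p.start_mem_support⟩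
  have h3 : (G.induce (((s.1 : Set V) ∪ {v | v ∈ p.support}) ∪ (t.1 : Set V))).Connected :=
    induce_union_connected h2.preconnected t.2.preconnected ⟨b, Or.inr p.end_mem_support, hb⟩
  refine ⟨⟨s.1 ∪ p.support.toFinset ∪ t.1, ?_⟩, ?_, ?_⟩
  · have e : ((s.1 ∪ p.support.toFinset ∪ t.1 : Finset V) : Set V) =
        ((s.1 : Set V) ∪ {v | v ∈ p.support}) ∪ (t.1 : Set V) := by
      ext v
      simp [or_assoc]
    rw [e]
    exact h3
  · intro x hx
    exact Finset.mem_union_left _ (Finset.mem_union_left _ hx)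
  · intro x hx
    exact Finset.mem_union_right _ hx

/-- Subtrees are closed under the step towards one of their points. -/
theorem par_mem (hG : G.IsTree) {s : Set V} (hs : (G.induce s).Connected) {x v w : V}
    (hx : x ∈ s) (hv : v ∈ s) (h : G.Adj v w) (hd : G.dist v x = G.dist w x + 1) : w ∈ s := by
  obtain ⟨p, hp⟩ := hG.connected.exists_walk_length_eq_dist w x
  have h1 : (Walk.cons h p).IsPath :=
    Walk.isPath_of_length_eq_dist _ (by rw [Walk.length_cons, hp, hd])
  obtain ⟨q, hq⟩ := (hs.preconnected ⟨v, hv⟩ ⟨x, hx⟩).exists_isPath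
  have h2 : (q.map (Embedding.induce (G := G) s).toHom).IsPath :=
    hq.map (Embedding.induce (G := G) s).injective
  have h3 := (hG.existsUnique_path v x).unique h1 h2
  have h4 : w ∈ (Walk.cons h p).support := by
    rw [Walk.support_cons]
    exact List.mem_cons_of_mem _ p.start_mem_support
  rw [h3] at h4
  have h5 := (congrArg (fun l => w ∈ l)
    (Walk.support_map (Embedding.induce (G := G) s).toHom q)).mp h4
  obtain ⟨z, -, rfl⟩ := List.mem_map.1 h5
  exact z.2

end

section act

variable {Γ : Type u} [Group Γ] {V : Type u} [MulAction Γ V] {G : SimpleGraph V}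

/-- The action on subtrees. -/
def Lb.smul (hadj : ∀ (g : Γ) (v w : V), G.Adj v w → G.Adj (g • v) (g • w)) (g : Γ) (s : Lb G) :
    Lb G :=
  ⟨s.1.map (MulAction.toPerm g).toEmbedding, by
    let f : G.induce (s.1 : Set V) →g
        G.induce ((s.1.map (MulAction.toPerm g).toEmbedding : Finset V) : Set V) :=
      { toFun := fun x => ⟨g • x.1, Finset.mem_map_of_mem _ x.2⟩
        map_rel' := fun {x y} h => by
          have h' : G.Adj x.1 y.1 := h
          exact hadj g x.1 y.1 h' }
    refine s.2.map f ?_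
    rintro ⟨y, hy⟩
    obtain ⟨x, hx, rfl⟩ := Finset.mem_map.1 hy
    exact ⟨⟨x, hx⟩, rfl⟩⟩

theorem Lb.mem_smul (hadj : ∀ (g : Γ) (v w : V), G.Adj v w → G.Adj (g • v) (g • w)) {g : Γ}
    {s : Lb G} {v : V} : v ∈ (Lb.smul hadj g s).1 ↔ g⁻¹ • v ∈ s.1 := by
  constructor
  · intro h
    obtain ⟨x, hx, rfl⟩ := Finset.mem_map.1 h
    show g⁻¹ • g • x ∈ s.1
    rwa [inv_smul_smul]
  · intro h
    exact Finset.mem_map.2 ⟨_, h, smul_inv_smul g v⟩

/-- The action on subtrees. -/
@[reducible] def Lb.act (hadj : ∀ (g : Γ) (v w : V), G.Adj v w → G.Adj (g • v) (g • w)) :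
    MulAction Γ (Lb G) where
  smul := Lb.smul hadj
  one_smul s := Lb.ext' (Finset.ext fun v => by
    show v ∈ (Lb.smul hadj 1 s).1 ↔ _
    rw [Lb.mem_smul, inv_one, one_smul])
  mul_smul g h s := Lb.ext' (Finset.ext fun v => by
    show v ∈ (Lb.smul hadj (g * h) s).1 ↔ v ∈ (Lb.smul hadj g (Lb.smul hadj h s)).1
    rw [Lb.mem_smul, Lb.mem_smul, Lb.mem_smul, mul_inv_rev, mul_smul])

end act

end Pool.Agent.NegK.NT.H66.TD
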