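import Pool.Agent.Lib.MP_28303a_al.NT.H66.TreeA

/-! # Exactness of the chain complex of a finite subtree -/

set_option autoImplicit false
set_option linter.unusedSectionVars false

namespace Pool.Agent.NegK.NT.H66.TD

universe u v w

open SimpleGraph Pool.Agent.NegK.TW

section

variable {Γ : Type u} [Group Γ] {V E : Type u} [MulAction Γ V] [MulAction Γ E]
  {G : SimpleGraph V} (T : OTree Γ V E)

/-- The boundary. -/
noncomputable def bd (A : Type w) [AddCommGroup A] : (E →₀ A) →+ (V →₀ A) :=
  Finsupp.liftAddHom fun e => Finsupp.singleAddHom (T.t e) - Finsupp.singleAddHom (T.o e)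

theorem bd_single {A : Type w} [AddCommGroup A] (e : E) (a : A) :
    bd T A (Finsupp.single e a) = Finsupp.single (T.t e) a - Finsupp.single (T.o e) a := by
  rw [bd, Finsupp.liftAddHom_apply_single]
  rfl

/-- The sum. -/
noncomputable def sm (V : Type u) (A : Type w) [AddCommGroup A] : (V →₀ A) →+ A :=
  Finsupp.liftAddHom fun _ => AddMonoidHom.id A

theorem sm_single {A : Type w} [AddCommGroup A] (v : V) (a : A) :
    sm V A (Finsupp.single v a) = a := by
  rw [sm, Finsupp.liftAddHom_apply_single]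
  rfl

theorem sm_bd {A : Type w} [AddCommGroup A] (y : E →₀ A) : sm V A (bd T A y) = 0 := by
  induction y using Finsupp.induction_linear with
  | zero => rw [map_zero, map_zero]
  | add f g hf hg => rw [map_add, map_add, hf, hg, add_zero]
  | single e a => rw [bd_single, map_sub, sm_single, sm_single, sub_self]

variable (hG : G.IsTree) (hT : T.Of G)
include hG hT

/-- The edge between two adjacent points. -/
theorem exists_edge {v w : V} (h : G.Adj v w) {A : Type w} [AddCommGroup A] (a : A) :
    ∃ (e : E) (b : A), (T.o e = v ∧ T.t e = w ∨ T.o e = w ∧ T.t e = v) ∧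
      bd T A (Finsupp.single e b) = Finsupp.single v a - Finsupp.single w a := by
  rcases hT.surj v w h with ⟨e, h1, h2⟩ | ⟨e, h1, h2⟩
  · refine ⟨e, -a, Or.inl ⟨h1, h2⟩, ?_⟩
    rw [bd_single, h1, h2, Finsupp.single_neg, Finsupp.single_neg]
    abel
  · refine ⟨e, a, Or.inr ⟨h1, h2⟩, ?_⟩
    rw [bd_single, h1, h2]

/-- Exactness in the middle. -/
theorem exact_mid (c : Lb G) {A : Type w} [AddCommGroup A] (x : V →₀ A)
    (hx : ∀ v, x v ≠ 0 → v ∈ c.1) (h : sm V A x = 0) :
    ∃ y : E →₀ A, (∀ e, y e ≠ 0 → T.o e ∈ c.1 ∧ T.t e ∈ c.1) ∧ bd T A y = x := by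
  classical
  obtain ⟨T1, T2⟩ := H14.td V G hG
  obtain ⟨b, hb⟩ := c.nonempty
  let Y : AddSubgroup (E →₀ A) :=
    { carrier := {y | ∀ e, y e ≠ 0 → T.o e ∈ c.1 ∧ T.t e ∈ c.1}
      zero_mem' := fun e he => absurd rfl he
      add_mem' := by
        intro y y' hy hy' e he
        by_contra hc
        refine he ?_
        rw [Finsupp.add_apply, not_not.1 fun h1 => hc (hy e h1), not_not.1 fun h1 => hc (hy' e h1),
          add_zero]
      neg_mem' := by
        intro y hy e he
        refine hy e fun h1 => he ?_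
        rw [Finsupp.neg_apply, h1, neg_zero] }
  have key : ∀ (n : ℕ) (v : V) (a : A), v ∈ c.1 → G.dist v b = n →
      Finsupp.single v a - Finsupp.single b a ∈ Y.map (bd T A) := by
    intro n
    induction n with
    | zero =>
      intro v a hv hn
      rw [(hG.connected.dist_eq_zero_iff).1 hn, sub_self]
      exact AddSubgroup.zero_mem _
    | succ n ih =>
      intro v a hv hn
      obtain ⟨p, hp⟩ := hG.connected.exists_walk_length_eq_dist v b
      cases p with
      | nil =>
        rw [dist_self] at hn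
        omega
      | @cons _ w _ hvw p =>
        rw [Walk.length_cons] at hp
        have h1 : G.dist v b = G.dist w b + 1 := by
          have := dist_le p
          rcases T1 v w b hvw with h | h <;> omega
        have hw : w ∈ c.1 := par_mem hG c.2 hb hv hvw h1
        have h2 := ih w a hw (by omega)
        obtain ⟨e, a', he, h3⟩ := exists_edge T hG hT hvw a
        have h4 : Finsupp.single v a - Finsupp.single w a ∈ Y.map (bd T A) := by
          rw [← h3]
          refine AddSubgroup.mem_map_of_mem _ fun e' he' => ?_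
          have : e' = e := by
            by_contra hne
            exact he' (Finsupp.single_eq_of_ne hne)
          rw [this]
          rcases he with ⟨h5, h6⟩ | ⟨h5, h6⟩
          · rw [h5, h6]
            exact ⟨hv, hw⟩
          · rw [h5, h6]
            exact ⟨hw, hv⟩
        have h5 := AddSubgroup.add_mem _ h4 h2
        rwa [sub_add_sub_cancel] at h5
  have h1 : x - Finsupp.single b (sm V A x) ∈ Y.map (bd T A) := by
    have h2 : x - Finsupp.single b (sm V A x) =
        x.sum fun v a => (Finsupp.single v a - Finsupp.single b a) := by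
      have e1 : Finsupp.single b (sm V A x) = x.sum fun _ a => Finsupp.single b a :=
        map_finsuppSum (Finsupp.singleAddHom b) x _
      rw [Finsupp.sum_sub, Finsupp.sum_single, e1]
    rw [h2]
    refine AddSubgroup.sum_mem _ fun v hv => key _ v _ (hx v (Finsupp.mem_support_iff.1 hv)) rfl
  rw [h, Finsupp.single_zero, sub_zero] at h1
  obtain ⟨y, hy, rfl⟩ := h1
  exact ⟨y, hy, rfl⟩

/-- Exactness on the left. -/
theorem exact_left {A : Type w} [AddCommGroup A] (y : E →₀ A) (h : bd T A y = 0) : y = 0 := by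
  classical
  obtain ⟨T1, T2⟩ := H14.td V G hG
  obtain ⟨b⟩ := hG.connected.nonempty
  by_contra hy
  have hne : y.support.Nonempty := Finsupp.support_nonempty_iff.2 hy
  let d : E → ℕ := fun e => max (G.dist (T.o e) b) (G.dist (T.t e) b)
  obtain ⟨e, he, hmax⟩ := Finset.exists_max_image y.support d hne
  have hval : ∀ v, bd T A y v =
      ∑ e' ∈ y.support, ((if T.t e' = v then y e' else 0) - if T.o e' = v then y e' else 0) := by
    intro v
    have e1 : bd T A y = ∑ e' ∈ y.support,
        (Finsupp.single (T.t e') (y e') - Finsupp.single (T.o e') (y e')) := rfl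
    rw [e1, Finsupp.finsetSum_apply]
    refine Finset.sum_congr rfl fun e' _ => ?_
    rw [Finsupp.sub_apply, Finsupp.single_apply, Finsupp.single_apply]
  obtain ⟨v, w, hvw, hd⟩ : ∃ v w, (T.o e = v ∧ T.t e = w ∨ T.o e = w ∧ T.t e = v) ∧
      G.dist v b = G.dist w b + 1 := by
    rcases T1 (T.o e) (T.t e) b (hT.adj e) with h1 | h1
    · exact ⟨_, _, Or.inl ⟨rfl, rfl⟩, h1⟩
    · exact ⟨_, _, Or.inr ⟨rfl, rfl⟩, h1⟩
  have hadj : G.Adj v w := by
    rcases hvw with ⟨h1, h2⟩ | ⟨h1, h2⟩
    · rw [← h1, ← h2]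
      exact hT.adj e
    · rw [← h1, ← h2]
      exact (hT.adj e).symm
  have hde : d e = G.dist v b := by
    show max (G.dist (T.o e) b) (G.dist (T.t e) b) = _
    rcases hvw with ⟨h1, h2⟩ | ⟨h1, h2⟩ <;> rw [h1, h2] <;> omega
  have hno : ∀ e' ∈ y.support, e' ≠ e → T.t e' ≠ v ∧ T.o e' ≠ v := by
    intro e' he' hne'
    have h1 := hmax e' he'
    rw [hde] at h1
    have h2 : ∀ u, (T.o e' = v ∧ T.t e' = u ∨ T.o e' = u ∧ T.t e' = v) → False := by
      intro u hu
      have hu' : G.Adj v u := by
        rcases hu with ⟨h3, h4⟩ | ⟨h3, h4⟩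
        · rw [← h3, ← h4]
          exact hT.adj e'
        · rw [← h3, ← h4]
          exact (hT.adj e').symm
      have hdu : G.dist u b ≤ G.dist v b := by
        refine le_trans ?_ h1
        show _ ≤ max (G.dist (T.o e') b) (G.dist (T.t e') b)
        rcases hu with ⟨h3, h4⟩ | ⟨h3, h4⟩ <;> rw [h3, h4] <;> omega
      have hdu' : G.dist v b = G.dist u b + 1 := by
        rcases T1 v u b hu' with h5 | h5
        · exact h5
        · omega
      have huw : u = w := T2 v u w b hu' hadj hdu' hd
      rw [huw] at hu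
      rcases hu with ⟨h3, h4⟩ | ⟨h3, h4⟩ <;> rcases hvw with ⟨h5, h6⟩ | ⟨h5, h6⟩
      · exact hne' (hT.inj e' e (by rw [h3, h5]) (by rw [h4, h6]))
      · exact hT.anti e' e (by rw [h3, h6]) (by rw [h4, h5])
      · exact hT.anti e' e (by rw [h3, h6]) (by rw [h4, h5])
      · exact hne' (hT.inj e' e (by rw [h3, h5]) (by rw [h4, h6]))
    exact ⟨fun h3 => h2 _ (Or.inr ⟨rfl, h3⟩), fun h3 => h2 _ (Or.inl ⟨h3, rfl⟩)⟩
  have h1 := hval v
  rw [h, Finsupp.coe_zero, Pi.zero_apply, Finset.sum_eq_single e (fun e' he' hne' => by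
    obtain ⟨h3, h4⟩ := hno e' he' hne'
    rw [if_neg h3, if_neg h4, sub_zero]) (fun h3 => absurd he h3)] at h1
  have hne2 := hadj.ne
  have hye := Finsupp.mem_support_iff.1 he
  rcases hvw with ⟨h3, h4⟩ | ⟨h3, h4⟩
  · rw [h3, h4, if_pos rfl, if_neg hne2.symm, zero_sub] at h1
    exact hye (neg_eq_zero.1 h1.symm)
  · rw [h3, h4, if_pos rfl, if_neg hne2.symm, sub_zero] at h1
    exact hye h1.symm

end

end Pool.Agent.NegK.NT.H66.TD
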