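import Pool.Agent.Lib.MP_28303a_al.NT.H66.TreeA

/-! # The centre of a finite subtree -/

set_option autoImplicit false
set_option linter.unusedSectionVars false

namespace Pool.Agent.NegK.NT.H66.TD

universe u v w

open SimpleGraph Pool.Agent.NegK.TW

section

variable {V : Type u} {G : SimpleGraph V}

/-- Paths that start away from `u` stay away. -/
theorem dist_side (hG : G.IsTree) (n : ℕ) : ∀ {u v w' w : V}, G.Adj v w' → G.dist w' w = n →
    G.dist w' u = G.dist v u + 1 → G.dist v w = G.dist w' w + 1 →
    G.dist w u = G.dist v u + G.dist v w := by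
  obtain ⟨T1, T2⟩ := H14.td V G hG
  induction n with
  | zero =>
    intro u v w' w h h0 h1 h2
    have := (hG.connected.dist_eq_zero_iff).1 h0
    subst this
    omega
  | succ n ih =>
    intro u v w' w h h0 h1 h2
    obtain ⟨p, hp⟩ := hG.connected.exists_walk_length_eq_dist w' w
    cases p with
    | nil =>
      rw [dist_self] at h0
      omega
    | @cons _ w'' _ hw p =>
      rw [Walk.length_cons] at hp
      have h3 : G.dist w' w = G.dist w'' w + 1 := by
        have := dist_le p
        rcases T1 w' w'' w hw with h | h <;> omega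
      have h4 : G.dist w'' u = G.dist w' u + 1 := by
        rcases T1 w' w'' u hw with h4 | h4
        · have h5 : v = w'' := T2 w' v w'' u h.symm hw h1 h4
          subst h5
          omega
        · exact h4
      have h5 := ih hw (by omega) h4 h3
      omega

open Classical in
/-- The radius. -/
noncomputable def rad (c : Lb G) (v : V) : ℕ := c.1.sup fun u => G.dist v u

theorem le_rad {c : Lb G} {u : V} (hu : u ∈ c.1) (v : V) : G.dist v u ≤ rad c v :=
  Finset.le_sup (f := fun u => G.dist v u) hu

theorem rad_le {c : Lb G} {v : V} {n : ℕ} : rad c v ≤ n ↔ ∀ u ∈ c.1, G.dist v u ≤ n :=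
  Finset.sup_le_iff

/-- Two centres are adjacent. -/
theorem adj_of_min (hG : G.IsTree) (c : Lb G) {v w : V} (hv : v ∈ c.1) (hw : w ∈ c.1)
    (hmin : ∀ x ∈ c.1, rad c v ≤ rad c x) (hvw : rad c w = rad c v) (hne : v ≠ w) : G.Adj v w := by
  obtain ⟨T1, T2⟩ := H14.td V G hG
  by_contra hadj
  obtain ⟨p, hp⟩ := hG.connected.exists_walk_length_eq_dist v w
  cases p with
  | nil => exact hne rfl
  | @cons _ w' _ hvw' p =>
    rw [Walk.length_cons] at hp
    have h1 : G.dist v w = G.dist w' w + 1 := by
      have := dist_le p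
      rcases T1 v w' w hvw' with h | h <;> omega
    have h2 : G.dist v w ≠ 1 := fun h => hadj (dist_eq_one_iff_adj.1 h)
    have hw' : w' ∈ c.1 := par_mem hG c.2 hw hv hvw' h1
    have h3 : rad c w' ≤ rad c v - 1 := by
      rw [rad_le]
      intro u hu
      have h4 := le_rad hu v
      have h5 := le_rad hu w
      rcases T1 v w' u hvw' with h | h
      · omega
      · have h6 := dist_side hG _ hvw' rfl h h1
        omega
    have h4 := hmin w' hw'
    have h5 := le_rad hw v
    omega

end

section act

variable {Γ : Type u} [Group Γ] {V : Type u} [MulAction Γ V] {G : SimpleGraph V}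

theorem dist_smul_le (hc : G.Connected)
    (hadj : ∀ (g : Γ) (v w : V), G.Adj v w → G.Adj (g • v) (g • w)) (g : Γ) (v w : V) :
    G.dist (g • v) (g • w) ≤ G.dist v w := by
  obtain ⟨p, hp⟩ := hc.exists_walk_length_eq_dist v w
  let f : G →g G := { toFun := fun x => g • x, map_rel' := fun {a b} h => hadj g a b h }
  have h1 := dist_le (p.map f)
  rwa [Walk.length_map, hp] at h1

theorem dist_smul (hc : G.Connected)
    (hadj : ∀ (g : Γ) (v w : V), G.Adj v w → G.Adj (g • v) (g • w)) (g : Γ)
    (v w : V) : G.dist (g • v) (g • w) = G.dist v w := by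
  refine le_antisymm (dist_smul_le hc hadj g v w) ?_
  have := dist_smul_le hc hadj g⁻¹ (g • v) (g • w)
  rwa [inv_smul_smul, inv_smul_smul] at this

/-- The stabilizer of a finite subtree fixes a vertex. -/
theorem centre (hT : TreeAct Γ G) (c : Lb G) :
    ∃ v ∈ c.1, ∀ g : Γ, Lb.smul hT.adj g c = c → g • v = v := by
  classical
  obtain ⟨T1, T2⟩ := H14.td V G hT.tree
  obtain ⟨v, hv, hmin⟩ := Finset.exists_min_image c.1 (rad c) c.nonempty
  refine ⟨v, hv, fun g hg => ?_⟩
  have hmem : ∀ x ∈ c.1, g • x ∈ c.1 := by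
    intro x hx
    rw [← hg, Lb.mem_smul, inv_smul_smul]
    exact hx
  have hmem' : ∀ x ∈ c.1, g⁻¹ • x ∈ c.1 := by
    intro x hx
    rw [← hg, Lb.mem_smul] at hx
    exact hx
  have hrad : ∀ x, rad c (g • x) = rad c x := by
    intro x
    refine le_antisymm (rad_le.2 fun u hu => ?_) (rad_le.2 fun u hu => ?_)
    · have h1 := le_rad (hmem' u hu) x
      rw [← dist_smul hT.tree.connected hT.adj g, smul_inv_smul] at h1
      exact h1
    · have h1 := le_rad (hmem u hu) (g • x)
      rwa [dist_smul hT.tree.connected hT.adj] at h1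
  by_contra hne
  have h1 : G.Adj v (g • v) := adj_of_min hT.tree c hv (hmem v hv) hmin (hrad v) (Ne.symm hne)
  have h2 : g • g • v ≠ g • v := fun h => hne (smul_left_cancel g h)
  by_cases h3 : g • g • v = v
  · exact hT.noinv g _ _ h1 ⟨rfl, h3⟩
  · have h4 : G.Adj v (g • g • v) := adj_of_min hT.tree c hv (hmem _ (hmem v hv)) hmin
      (by rw [hrad, hrad]) (Ne.symm h3)
    have h5 : G.Adj (g • v) (g • g • v) := hT.adj g _ _ h1
    have e1 : G.dist (g • v) v = 1 := dist_eq_one_iff_adj.2 h1.symm
    have e2 : G.dist (g • g • v) v = 1 := dist_eq_one_iff_adj.2 h4.symm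
    rcases T1 _ _ v h5 with h | h <;> omega

end act

end Pool.Agent.NegK.NT.H66.TD
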