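import Pool.Agent.Lib.MP_28303a_al.NT.H66.TreeB
import Pool.Agent.Lib.MP_28303a_al.NT.H66.TreeC
import Pool.Agent.Lib.MP_28303a_al.TW.H19.Fin1
import Pool.Agent.Lib.MP_28303a_al.NT.Sys

/-! # The boxes of a product of trees -/

set_option autoImplicit false
set_option linter.unusedSectionVars false

namespace Pool.Agent.NegK.NT.H66.TD

universe u v w

open SimpleGraph Pool.Agent.NegK.TW

variable {Γ : Type u} [Group Γ] {m : ℕ} (V : Fin m → Type u) [iV : ∀ i, MulAction Γ (V i)]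
  (G : ∀ i, SimpleGraph (V i)) (hG : ∀ i, TreeAct Γ (G i))

/-- The system of the boxes in a product of trees. -/
def treeSys : Sys Γ where
  m := m
  B i := Lb (G i)
  act i := Lb.act (hG i).adj
  ord i := inferInstance
  mono i g x y h := by
    rw [Lb.le_iff] at h ⊢
    intro v hv
    have h1 := (Lb.mem_smul (hG i).adj).1 hv
    exact (Lb.mem_smul (hG i).adj).2 (h h1)
  dir i x y := dir (hG i).tree x y
  ne i := by
    obtain ⟨v⟩ := (hG i).tree.connected.nonempty
    exact ⟨Lb.vt (G i) v⟩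

theorem smul_eq (i : Fin m) (g : Γ) (x : Lb (G i)) :
    ((treeSys V G hG).act i).toSMul.smul g x = Lb.smul (hG i).adj g x := rfl

omit hG in
theorem le_smul_iff {W : Type u} [MulAction Γ W] {H : SimpleGraph W}
    (hadj : ∀ (g : Γ) (v w : W), H.Adj v w → H.Adj (g • v) (g • w)) (g : Γ) (x y : Lb H) :
    x ≤ Lb.smul hadj g y ↔ ∀ v ∈ x.1, g⁻¹ • v ∈ y.1 := by
  constructor
  · intro h v hv
    exact (Lb.mem_smul hadj).1 (h hv)
  · intro h v hv
    exact (Lb.mem_smul hadj).2 (h v hv)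

/-- Finiteness: up to the joint pointwise stabilizer of the box `U` there are only finitely many
elements `g` with `U ≤ g W`. -/
theorem fin_smul (U W : ∀ i, Lb (G i)) : ∃ F : Finset Γ, ∀ g : Γ,
    (∀ i, U i ≤ Lb.smul (hG i).adj g (W i)) →
    ∃ f ∈ F, (∀ i, U i ≤ Lb.smul (hG i).adj f (W i)) ∧ ∀ i, ∀ v ∈ (U i).1, (g * f⁻¹) • v = v := by
  classical
  let S : Set Γ := {g | ∀ i, U i ≤ Lb.smul (hG i).adj g (W i)}
  let τ : S → (∀ i, (U i).1 → (W i).1) := fun g i v =>
    ⟨g.1⁻¹ • v.1, (le_smul_iff (hG i).adj g.1 (U i) (W i)).1 (g.2 i) v.1 v.2⟩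
  have hfin : (Set.range τ).Finite := Set.toFinite _
  choose s hs using fun z : Set.range τ => z.2
  have : Fintype (Set.range τ) := hfin.fintype
  refine ⟨Finset.univ.image fun z : Set.range τ => (s z).1, fun g hg => ?_⟩
  let z : Set.range τ := ⟨τ ⟨g, hg⟩, ⟨g, hg⟩, rfl⟩
  have hz : τ (s z) = τ ⟨g, hg⟩ := hs z
  refine ⟨(s z).1, ?_, (s z).2, fun i v hv => ?_⟩
  · rw [Finset.mem_image]
    exact ⟨z, Finset.mem_univ _, rfl⟩
  · have h1 := congrArg Subtype.val (congrFun (congrFun hz i) ⟨v, hv⟩)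
    have h2 : (s z).1⁻¹ • v = g⁻¹ • v := h1
    rw [mul_smul, h2, smul_inv_smul]

/-- If no element different from `1` fixes a joint vertex, then there are only finitely many
elements `g` with `U ≤ g W`. -/
theorem fin_free (hfree : ∀ (g : Γ) (x : ∀ i, V i), (∀ i, g • x i = x i) → g = 1)
    (U W : ∀ i, Lb (G i)) : {g : Γ | ∀ i, U i ≤ Lb.smul (hG i).adj g (W i)}.Finite := by
  obtain ⟨F, hF⟩ := fin_smul V G hG U W
  refine F.finite_toSet.subset fun g hg => ?_
  obtain ⟨f, hf, -, h⟩ := hF g hg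
  choose x hx using fun i => (U i).nonempty
  have h1 := hfree (g * f⁻¹) x fun i => h i (x i) (hx i)
  rw [mul_inv_eq_one.1 h1]
  exact hf

/-- The stabilizer of a box fixes a joint vertex. -/
theorem stab_box (U : ∀ i, Lb (G i)) : ∃ x : ∀ i, V i, (∀ i, x i ∈ (U i).1) ∧
    ∀ g : Γ, (∀ i, Lb.smul (hG i).adj g (U i) = U i) → ∀ i, g • x i = x i := by
  choose x hx1 hx2 using fun i => centre (hG i) (U i)
  exact ⟨x, hx1, fun g hg i => hx2 i g (hg i)⟩

end Pool.Agent.NegK.NT.H66.TD
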