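import Pool.Agent.Lib.MP_28303a_al.NT.H66.Ext
import Pool.Agent.Lib.MP_28303a_al.TT.H91.Val

/-! # Finitely many discrete valuations whose common integral elements in a finitely generated
ring of characteristic `p` are algebraic over the prime field -/

set_option autoImplicit false

namespace Pool.Agent.NegK.NT.H66

universe u

open Pool.Agent.NegK.TT.H91 Polynomial

/-- The weight `- degree`. -/
noncomputable def wneg (s : ℕ) : (Fin s →₀ ℕ) →+ ℤ :=
  -((Nat.castAddMonoidHom ℤ).comp Finsupp.degree)

theorem wneg_apply (s : ℕ) (m : Fin s →₀ ℕ) : wneg s m = -(m.degree : ℤ) := rfl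

/-- The degree valuation of the field of rational functions in `s` variables over `F`. -/
theorem exists_degVal (F : Type) [Field F] (s : ℕ) (K : Type*) [Field K]
    [Algebra (MvPolynomial (Fin s) F) K] [IsFractionRing (MvPolynomial (Fin s) F) K] :
    ∃ v : Valuation K (WithZero (Multiplicative ℤ)), ∀ f : MvPolynomial (Fin s) F,
      v (algebraMap _ K f) ≤ 1 → ∃ c : F, f = MvPolynomial.C c := by
  let i1 : Algebra (AddMonoidAlgebra F (Fin s →₀ ℕ)) K :=
    inferInstanceAs (Algebra (MvPolynomial (Fin s) F) K)
  have i2 : IsFractionRing (AddMonoidAlgebra F (Fin s →₀ ℕ)) K :=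
    inferInstanceAs (IsFractionRing (MvPolynomial (Fin s) F) K)
  refine ⟨wtValK (F := F) (wneg s) K, fun f hf => ?_⟩
  have h1 : wt (F := F) (wneg s) f ≤ 1 := by
    rw [← wtValK_apply (F := F) (wneg s) K]
    exact hf
  refine ⟨MvPolynomial.coeff 0 f, ?_⟩
  ext m
  rw [MvPolynomial.coeff_C]
  split_ifs with hm
  · rw [hm]
  · by_contra h
    have h2 : WithZero.exp (-(wneg s m)) ≤ wt (F := F) (wneg s) f := by
      refine le_wt (F := F) (wneg s) ?_
      exact Finsupp.mem_support_iff.2 h
    have h3 := h2.trans h1
    rw [← WithZero.exp_zero, WithZero.exp_le_exp, wneg_apply, neg_neg] at h3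
    have h4 : m.degree = 0 := by omega
    exact hm ((Finsupp.degree_eq_zero_iff m).1 h4).symm

/-- VAL. -/
theorem exists_vals (p : ℕ) [Fact p.Prime] (A : Type u) [CommRing A] [IsDomain A]
    [Algebra (ZMod p) A] [Algebra.FiniteType (ZMod p) A] (L : Type u) [Field L] [Algebra A L]
    [IsFractionRing A L] :
    ∃ (m : ℕ) (v : Fin m → Valuation L (WithZero (Multiplicative ℤ))),
      ∀ a : A, (∀ i, v i (algebraMap A L a) ≤ 1) → IsAlgebraic (ZMod p) a := by
  obtain ⟨s, g, hg, hfin⟩ := exists_finite_inj_algHom_of_fg (ZMod p) A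
  let P := MvPolynomial (Fin s) (ZMod p)
  let K := FractionRing P
  algebraize [g.toRingHom]
  let i3 : Algebra P L := ((algebraMap A L).comp (algebraMap P A)).toAlgebra
  have i4 : IsScalarTower P A L := IsScalarTower.of_algebraMap_eq fun _ => rfl
  have hPA : Function.Injective (algebraMap P A) := hg
  have i5 : FaithfulSMul P A := (faithfulSMul_iff_algebraMap_injective P A).2 hPA
  have hPL : Function.Injective (algebraMap P L) := (IsFractionRing.injective A L).comp hPA
  have i5' : FaithfulSMul P L := (faithfulSMul_iff_algebraMap_injective P L).2 hPL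
  let i6 : Algebra K L := FractionRing.liftAlgebra P L
  have i7 : IsScalarTower P K L := inferInstance
  have i8 : Module.Finite P A := hfin
  have i9 : FiniteDimensional K L := Module.Finite.of_isLocalization P A (nonZeroDivisors P)
  have i10 : CharP K p := by
    have : CharP P p := inferInstance
    exact charP_of_injective_algebraMap (IsFractionRing.injective P K) p
  have i11 : ExpChar K p := ExpChar.prime Fact.out
  let Ls := separableClosure K L
  have i12 : IsPurelyInseparable Ls L := inferInstance
  have i13 : Algebra.IsSeparable K Ls := inferInstance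
  have i14 : FiniteDimensional K Ls := inferInstance
  have i15 : FiniteDimensional Ls L := inferInstance
  have i16 : ExpChar Ls p := expChar_of_injective_algebraMap (algebraMap K Ls).injective p
  let n := IsPurelyInseparable.exponent Ls L
  let Fr : L →+* Ls := IsPurelyInseparable.iterateFrobenius Ls L p (le_refl n)
  have hFr : ∀ a : L, algebraMap Ls L (Fr a) = a ^ p ^ n :=
    IsPurelyInseparable.algebraMap_iterateFrobenius Ls p (le_refl n)
  obtain ⟨v, hv⟩ := exists_degVal (ZMod p) s K
  obtain ⟨m, w, hw⟩ := ext_vals K Ls v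
  refine ⟨m, fun i => (w i).comap Fr, fun a ha => ?_⟩
  let b : Ls := Fr (algebraMap A L a)
  have i17 : IsScalarTower P Ls L := IsScalarTower.of_algebraMap_eq fun _ => rfl
  have hb1 : IsIntegral v.valuationSubring b := hw b ha
  have hb2 : IsIntegral P b := by
    have h1 : IsIntegral P (algebraMap A L a) := (Algebra.IsIntegral.isIntegral (R := P) a).algebraMap
    have h2 : IsIntegral P (algebraMap Ls L b) := by
      rw [hFr]
      exact h1.pow _
    exact (isIntegral_algebraMap_iff (algebraMap Ls L).injective).1 h2
  have hm1 : minpoly K b = (minpoly P b).map (algebraMap P K) :=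
    minpoly.isIntegrallyClosed_eq_field_fractions' K hb2
  have hm2 : minpoly K b = (minpoly v.valuationSubring b).map (algebraMap v.valuationSubring K) :=
    minpoly.isIntegrallyClosed_eq_field_fractions' K hb1
  have hc : ∀ i, ∃ c : ZMod p, algebraMap (ZMod p) K c = (minpoly K b).coeff i := by
    intro i
    have h1 : v (algebraMap P K ((minpoly P b).coeff i)) ≤ 1 := by
      rw [← Polynomial.coeff_map, ← hm1, hm2, Polynomial.coeff_map]
      exact ((minpoly v.valuationSubring b).coeff i).2
    obtain ⟨c, hc⟩ := hv _ h1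
    refine ⟨c, ?_⟩
    rw [hm1, Polynomial.coeff_map, hc]
    exact IsScalarTower.algebraMap_apply (ZMod p) P K c
  have hlift : minpoly K b ∈ Polynomial.lifts (algebraMap (ZMod p) K) :=
    (Polynomial.lifts_iff_coeff_lifts _).2 hc
  obtain ⟨q, hq⟩ := hlift
  let jL : ZMod p →+* L := (algebraMap A L).comp (algebraMap (ZMod p) A)
  have hq0 : q ≠ 0 := by
    rintro rfl
    rw [Polynomial.coe_mapRingHom, Polynomial.map_zero] at hq
    exact minpoly.ne_zero (IsIntegral.of_finite K b) hq.symm
  have hq1 : Polynomial.eval₂ jL (algebraMap A L a ^ p ^ n) q = 0 := by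
    have h1 : Polynomial.aeval b (minpoly K b) = 0 := minpoly.aeval K b
    have h2 := congrArg (algebraMap Ls L) h1
    rw [← hq, Polynomial.coe_mapRingHom, Polynomial.aeval_def, Polynomial.eval₂_map,
      Polynomial.hom_eval₂, hFr, map_zero] at h2
    rwa [RingHom.ext_zmod ((algebraMap Ls L).comp _) jL] at h2
  refine IsAlgebraic.of_pow (n := p ^ n) (pow_pos (Nat.Prime.pos Fact.out) n) ⟨q, hq0, ?_⟩
  refine IsFractionRing.injective A L ?_
  rw [map_zero, Polynomial.aeval_def, Polynomial.hom_eval₂, map_pow]
  exact hq1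

end Pool.Agent.NegK.NT.H66
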